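import Pool.Agent.H149Z.SU.Basic

/-! Definitions for the proof of `S07589` (purely morphic words: `s(n) = Θ(p(n)/n)`).
Bi-infinite words are functions `ℤ → B`; `fac, Agr, Per, IsParse, Elementary, LogClass, pc` come
from `Pool.Agent.H149Z.SU`. -/

set_option autoImplicit false

namespace Pool.Agent.H880Z

open Pool.Agent.H149Z.SU

/-- `e` is a growing letter that is its own first growing child. -/
def FF {B : Type} (τ : B → List B) (G : B → Prop) (e : B) : Prop :=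
  G e ∧ ∃ p r : List B, τ e = p ++ e :: r ∧ ∀ x ∈ p, ¬ G x

/-- `e` is a growing letter that is its own last growing child. -/
def LF {B : Type} (τ : B → List B) (G : B → Prop) (e : B) : Prop :=
  G e ∧ ∃ r s : List B, τ e = r ++ e :: s ∧ ∀ x ∈ s, ¬ G x

/-- Normal form of a morphism: the letters outside `G` are fixed, those of `G` have images of
length at least two, and the first / last growing child maps are idempotent. -/
structure NF {B : Type} (τ : B → List B) (G : B → Prop) : Prop where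
  fix : ∀ b, ¬ G b → τ b = [b]
  two : ∀ b, G b → 2 ≤ (τ b).length
  first : ∀ b, G b → ∃ (p : List B) (e : B) (r : List B),
    τ b = p ++ e :: r ∧ (∀ x ∈ p, ¬ G x) ∧ FF τ G e
  last : ∀ b, G b → ∃ (r : List B) (e : B) (s : List B),
    τ b = r ++ e :: s ∧ (∀ x ∈ s, ¬ G x) ∧ LF τ G e

/-- A bi-infinite fixed point of a morphism in normal form, with the consequences of
elementarity. -/
structure PS (B : Type) where
  τ : B → List B
  G : B → Prop
  U : ℤ → B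
  c : ℤ → ℤ
  M : ℕ
  D : ℕ
  P : ℕ
  T : ℕ
  nf : NF τ G
  parse : IsParse τ U c U
  len_le : ∀ b, (τ b).length ≤ M
  Dpos : 1 ≤ D
  Tpos : 1 ≤ T
  Tdvd : ∀ q : ℕ, 1 ≤ q → q ≤ M → q ∣ T
  delayR : ∀ i j : ℤ, Agr U U (c i) (c j) D → U i = U j
  delayL : ∀ i j : ℤ, Agr U U (c i - D) (c j - D) D → U (i - 1) = U (j - 1)
  sync : ∀ p q n : ℤ, Agr U U p q n →
    (∃ i j : ℤ, c i - p = c j - q ∧ p ≤ c i ∧ c i ≤ p + n) ∨
    (∃ π : ℤ, 1 ≤ π ∧ π ≤ P ∧ Per U π (p + D) (p + n - D))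
  born : ∀ x y : ℤ, ∃ (k : ℕ) (i : ℤ), c^[k] i ≤ x ∧ y < c^[k] (i + 2)
  infR : ∀ x : ℤ, ∃ y : ℤ, x ≤ y ∧ G (U y)
  infL : ∀ x : ℤ, ∃ y : ℤ, y ≤ x ∧ G (U y)

/-- No growing letter at the positions `[a, b)`. -/
def NoG {B : Type} (X : PS B) (a b : ℤ) : Prop :=
  ∀ t : ℤ, a ≤ t → t < b → ¬ X.G (X.U t)

/-- The images of level `K` of the suffixes starting at `i` and at `j` agree on exactly `d`
letters. -/
def Ch {B : Type} (X : PS B) (K : ℕ) (i j d : ℤ) : Prop :=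
  0 ≤ d ∧ Agr X.U X.U (X.c^[K] i) (X.c^[K] j) d ∧ X.U (X.c^[K] i + d) ≠ X.U (X.c^[K] j + d)

/-- On the side of `i`, from offset `d0` on, one reads a `T`-periodic run of at most `M K` fixed
letters that is closed by a growing letter at offset `e ≥ d`, inside the image of `[i, i+H)`. -/
def Stab {B : Type} (X : PS B) (K : ℕ) (i H d0 d : ℤ) : Prop :=
  ∃ e : ℤ, d ≤ e ∧ e ≤ d0 + X.M * K ∧ X.c^[K] i + e < X.c^[K] (i + H) ∧
    X.G (X.U (X.c^[K] i + e)) ∧ NoG X (X.c^[K] i + d0) (X.c^[K] i + e) ∧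
    Per X.U X.T (X.c^[K] i + d0) (X.c^[K] i + e)

/-- The word `U[x-n, x)` is right special. -/
def RS {A : Type} (U : ℤ → A) (x : ℤ) (n : ℕ) : Prop :=
  ∃ y : ℤ, U x ≠ U y ∧ Agr U U (x - n) (y - n) n

/-- Number of right special words of length `n`. -/
noncomputable def rs {A : Type} (U : ℤ → A) (n : ℕ) : ℕ :=
  Set.ncard {w : List A | ∃ x : ℤ, RS U x n ∧ w = fac U (x - n) n}

/-- The words `U[x-n, x)` with `Q x n`, `n ≤ N`, are suffixes of `O(N)` left infinite words. -/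
def Cov {A : Type} (U : ℤ → A) (Q : ℤ → ℕ → Prop) : Prop :=
  ∃ C : ℕ, ∀ N : ℕ, ∃ Z : Finset (ℕ → A), Z.card ≤ C * (N + 1) ∧
    ∀ (x : ℤ) (n : ℕ), n ≤ N → Q x n → ∃ z ∈ Z, ∀ t : ℕ, t < n → U (x - 1 - t) = z t

/-- Class 1: the mismatch lies inside the images of both windows. -/
def Dat {B : Type} (X : PS B) (R : ℕ) (x : ℤ) (n : ℕ) : Prop :=
  ∃ (K : ℕ) (i j d : ℤ), K ≤ n ∧ Ch X K i j d ∧ x = X.c^[K] i + d ∧
    x < X.c^[K] (i + R) ∧ X.c^[K] j + d < X.c^[K] (j + R) ∧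
    Per X.U X.T (x - n) (X.c^[K] (i - R) + X.T)

/-- Class 2: `x` is the first growing position after the length of the other window. -/
def Dat2 {B : Type} (X : PS B) (R : ℕ) (x : ℤ) (n : ℕ) : Prop :=
  ∃ (K : ℕ) (i j : ℤ), K ≤ n ∧ x < X.c^[K] (i + R) ∧ X.G (X.U x) ∧
    X.c^[K] i + (X.c^[K] (j + R) - X.c^[K] j) ≤ x ∧
    NoG X (X.c^[K] i + (X.c^[K] (j + R) - X.c^[K] j)) x ∧
    Per X.U X.T (x - n) (X.c^[K] (i - R) + X.T)

/-- Class 3: `y` is a break of the period `T` in (or at the end of) the run `(e, e')` that comes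
from the short run `(a, a')` of level `k`. -/
def Brk {B : Type} (X : PS B) (R : ℕ) (y : ℤ) (n : ℕ) : Prop :=
  ∃ (k : ℕ) (a a' e e' : ℤ), X.G (X.U a) ∧ X.G (X.U a') ∧ a < a' ∧ a' ≤ a + X.M ∧
    e < X.c^[k] (a + 1) ∧ X.c^[k] a' ≤ e' ∧ X.G (X.U e) ∧ X.G (X.U e') ∧ NoG X (e + 1) e' ∧
    e + X.T < y ∧ y ≤ e' ∧ X.U y ≠ X.U (y - X.T) ∧
    Per X.U X.T (y - n) (X.c^[k] (a - R) + X.T)

/-- Class 4: the root word `[i-r, i)` is long, periodic inside and has no long run. -/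
def Uns {B : Type} (X : PS B) (R : ℕ) (x : ℤ) (n : ℕ) : Prop :=
  ∃ (K : ℕ) (i j r d π : ℤ), K ≤ n ∧ (R : ℤ) ≤ r ∧ 0 ≤ d ∧ x = X.c^[K] i + d ∧
    x < X.c^[K] (i + R) ∧ 1 ≤ π ∧ π ≤ X.P ∧ Per X.U π (i - r + X.D) (i - X.D) ∧
    (∀ s : ℤ, i - r ≤ s → s + 2 * X.M + 1 ≤ i → ¬ NoG X s (s + 2 * X.M + 1)) ∧
    x - n < X.c^[K] (i - r + 1) ∧
    Per X.U X.T (x - n) (X.c^[K] (i - r - R) + X.T) ∧
    ((Ch X K i j d ∧ X.c^[K] j + d < X.c^[K] (j + R)) ∨
      (X.c^[K] (j + R) - X.c^[K] j ≤ d ∧ d ≤ X.c^[K] (j + R) - X.c^[K] j + X.M * K))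

/-- A family of right special pairs: `l j` fixed letters preceded by a growing letter, and `j`
more common letters on the left. -/
def Fam {B : Type} (U : ℤ → B) (G : B → Prop) : Prop :=
  ∃ (C : ℕ) (x y : ℕ → ℤ) (l : ℕ → ℕ), ∀ j : ℕ,
    U (x j) ≠ U (y j) ∧ Agr U U (x j - l j - j) (y j - l j - j) (l j + j) ∧
    G (U (x j - l j - 1)) ∧ (∀ t : ℤ, x j - l j ≤ t → t < x j → ¬ G (U t)) ∧
    ∃ s δ : List B, 1 ≤ s.length + δ.length ∧ s.length + δ.length ≤ C ∧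
      fac U (x (j + 1) - l (j + 1)) (l (j + 1)) = s ++ fac U (x j - l j) (l j) ++ δ

/-- A one-sided word preceded by infinitely many copies of a new letter. -/
def ext {A : Type} (u : ℕ → A) : ℤ → Option A :=
  fun t => if t < 0 then none else some (u t.toNat)

/-- `γ(v[0,n))` is a initial segment of `u` for every `n`. -/
def Pre {A B : Type} (γ : B → List A) (v : ℕ → B) (u : ℕ → A) : Prop :=
  ∀ (n j : ℕ) (h : j < (((List.range n).map v).flatMap γ).length),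
    u j = (((List.range n).map v).flatMap γ)[j]

/-- Eventually periodic. -/
def EvPer {A : Type} (u : ℕ → A) : Prop :=
  ∃ N p : ℕ, 0 < p ∧ ∀ n, N ≤ n → u (n + p) = u n

/-- Factor complexity, written as in the frozen statement. -/
noncomputable def pf {A : Type} (u : ℕ → A) (n : ℕ) : ℕ :=
  (Set.range (fun i : ℕ => fun j : Fin n => u (i + j.val))).ncard

/-- `u` is the fixed point of `σ` generated by its first letter. -/
def Gen {A : Type} (σ : A → List A) (u : ℕ → A) : Prop :=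
  (∀ n i, i < ((fun w : List A => w.flatMap σ)^[n] [u 0]).length →
      ((fun w : List A => w.flatMap σ)^[n] [u 0])[i]? = some (u i)) ∧
  (∀ m, ∃ n, m < ((fun w : List A => w.flatMap σ)^[n] [u 0]).length)

end Pool.Agent.H880Z
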