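import Pool.Agent.H880Z.Defs

/-! The statements into which the proof of `S07589` is split. -/

set_option autoImplicit false

namespace Pool.Agent.H880Z

open Pool.Agent.H149Z.SU

/-- Once the next growing letters on both sides are `FF`, no growing letter is ever consumed. -/
def S_stable : Prop :=
  ∀ (B : Type) (X : PS B) (K : ℕ) (i j d : ℤ), X.U i ≠ X.U j →
    (∃ e : ℤ, i ≤ e ∧ FF X.τ X.G (X.U e) ∧ NoG X i e) →
    (∃ e : ℤ, j ≤ e ∧ FF X.τ X.G (X.U e) ∧ NoG X j e) →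
    Ch X K i j d →
    NoG X (X.c^[K] i) (X.c^[K] i + d) ∧ (d = 0 ∨ Stab X K i 1 0 d ∨ Stab X K j 1 0 d)

/-- The common extension of the images of a mismatch. -/
def S_phase : Prop :=
  ∀ (B : Type) (X : PS B), ∃ H : ℕ, ∀ (K : ℕ) (i j d : ℤ), X.U i ≠ X.U j → Ch X K i j d →
    (X.c^[K] i + d < X.c^[K] (i + H) ∧ X.c^[K] j + d < X.c^[K] (j + H)) ∨
    ∃ d0 : ℤ, 0 ≤ d0 ∧ d0 ≤ d ∧ X.c^[K] i + d0 < X.c^[K] (i + H) ∧
      X.c^[K] j + d0 < X.c^[K] (j + H) ∧ (Stab X K i H d0 d ∨ Stab X K j H d0 d)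

/-- Mirror image of `S_phase`, in the weak form that is needed. -/
def S_left : Prop :=
  ∀ (B : Type) (X : PS B), ∃ R : ℕ, ∀ (K : ℕ) (a b l : ℤ), X.U (a - 1) ≠ X.U (b - 1) →
    Agr X.U X.U (X.c^[K] a - l) (X.c^[K] b - l) l →
    Per X.U X.T (X.c^[K] a - l) (X.c^[K] (a - R) + X.T)

/-- The desubstitution chain of a right special pair and its root. -/
def S_root : Prop :=
  ∀ (B : Type) (X : PS B) (x y : ℤ) (n : ℕ), X.U x ≠ X.U y → Agr X.U X.U (x - n) (y - n) n →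
    ∃ (K : ℕ) (i j r d : ℤ), K ≤ n ∧ 0 ≤ r ∧ X.U i ≠ X.U j ∧ Ch X K i j d ∧
      x = X.c^[K] i + d ∧ y = X.c^[K] j + d ∧ Agr X.U X.U (i - r) (j - r) r ∧
      (X.c^[K] (i - r) ≤ x - n ∨ X.U (i - r - 1) ≠ X.U (j - r - 1)) ∧
      (r = 0 ∨ x - n < X.c^[K] (i - r + 1)) ∧
      (r = 0 ∨ NoG X (i - r + 1) i ∨
        ¬ ∃ a b : ℤ, X.c a - i = X.c b - j ∧ i - r ≤ X.c a ∧ X.c a ≤ i)

/-- Consecutive growing letters: the level at which the run is short; the ends of a long run;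
the inner positions of a run are cuts. -/
def S_born : Prop :=
  ∀ (B : Type) (X : PS B),
    (∀ e e' : ℤ, e < e' → X.G (X.U e) → X.G (X.U e') → NoG X (e + 1) e' →
      ∃ (g : ℕ) (a a' : ℤ), X.G (X.U a) ∧ X.G (X.U a') ∧ a < a' ∧ a' ≤ a + X.M ∧
        X.c^[g] a ≤ e ∧ e < X.c^[g] (a + 1) ∧ X.c^[g] a' ≤ e' ∧ e' < X.c^[g] (a' + 1)) ∧
    (∀ e e' : ℤ, e + X.M ≤ e' → X.G (X.U e) → X.G (X.U e') → NoG X (e + 1) e' →
      LF X.τ X.G (X.U e) ∧ FF X.τ X.G (X.U e')) ∧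
    (∀ s : ℤ, NoG X s (s + 2 * X.M + 1) → ∃ a : ℤ, X.c a = s + X.M)

def S_dat : Prop :=
  ∀ (B : Type) [Fintype B] (X : PS B) (R : ℕ), X.T ≤ R → Cov X.U (Dat X R) ∧ Cov X.U (Dat2 X R)

def S_brk : Prop :=
  ∀ (B : Type) [Fintype B] (X : PS B) (R : ℕ), Cov X.U (Brk X R)

def S_uns : Prop :=
  ∀ (B : Type) [Fintype B] (X : PS B), ∃ R0 : ℕ, ∀ R : ℕ, R0 ≤ R → Cov X.U (Uns X R)

/-- The right special words of length `≤ N` are suffixes of `O(N)` left infinite words. -/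
def S_cover : Prop :=
  ∀ (B : Type) [Fintype B] (X : PS B), Cov X.U (RS X.U)

/-- First difference of the complexity and right special words. -/
def S_rs : Prop :=
  ∀ (A : Type) [Fintype A] (W : ℤ → A) (n : ℕ),
    pc W n + rs W n ≤ pc W (n + 1) ∧ pc W (n + 1) ≤ pc W n + Fintype.card A * rs W n

/-- The upper bound passes to the image under an elementary morphism. -/
def S_gup : Prop :=
  ∀ (A B : Type) [Fintype A] [Fintype B] (g : B → List A) (V : ℤ → B) (C : ℤ → ℤ) (W : ℤ → A),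
    Elementary g → IsParse g V C W → Cov V (RS V) → ∃ c : ℕ, ∀ n : ℕ, rs W n ≤ c * (n + 1)

/-- Unbounded runs give a family of right special pairs. -/
def S_lower : Prop :=
  ∀ (B : Type) (X : PS B), (∀ L : ℕ, ∃ s : ℤ, NoG X s (s + L)) → Fam X.U X.G

/-- The lower bound in the image under an elementary morphism. -/
def S_glow : Prop :=
  ∀ (A B : Type) [Fintype A] [Fintype B] (g : B → List A) (V : ℤ → B) (G : B → Prop)
    (C : ℤ → ℤ) (W : ℤ → A), Elementary g → IsParse g V C W → Fam V G →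
    ∃ c N : ℕ, ∀ n : ℕ, N ≤ n → n ≤ c * rs W n

/-- Recoding: a possibly erasing morphism that expands all windows of one length. -/
def S_recode : Prop :=
  ∀ (A : Type) [Fintype A] (s : A → List A) (U : ℤ → A) (c : ℤ → ℤ) (R : ℕ),
    IsParse s U c U → 1 ≤ R → (∀ i : ℤ, c i + 2 * R ≤ c (i + R)) →
    LogClass (fun n => (pc U (n + 1) : ℝ) - pc U n)

/-- Bounded runs give the hypothesis of the recoding. -/
def S_np : Prop :=
  ∀ (A B : Type) [Fintype B] (X : PS B) (g : B → List A) (h : A → List B) (cg ch : ℤ → ℤ)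
    (W : ℤ → A), (∀ b, g b ≠ []) → IsParse g X.U cg W → IsParse h W ch X.U →
    (∀ i : ℤ, X.c i = ch (cg i)) → (∃ L : ℕ, ∀ s : ℤ, ¬ NoG X s (s + L)) →
    ∃ (s : A → List A) (c : ℤ → ℤ) (R : ℕ),
      IsParse s W c W ∧ 1 ≤ R ∧ ∀ i : ℤ, c i + 2 * R ≤ c (i + R)

/-- A morphism all of whose powers are elementary has a power in normal form. -/
def S_norm : Prop :=
  ∀ (B : Type) [Fintype B] (τ : B → List B),
    (∀ k : ℕ, Elementary (fun b : B => (fun w : List B => w.flatMap τ)^[k] [b])) →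
    ∃ (k : ℕ) (G : B → Prop), 1 ≤ k ∧
      NF (fun b : B => (fun w : List B => w.flatMap τ)^[k] [b]) G

/-- Factorisation of a power of a morphism through a minimal alphabet. -/
def S_fact : Prop :=
  ∀ (A : Type) [Fintype A] (σ : A → List A),
    ∃ (m r : ℕ) (g : Fin m → List A) (h : A → List (Fin m)) (G : Fin m → Prop), 1 ≤ r ∧
      (∀ a : A, (fun w : List A => w.flatMap σ)^[r] [a] = (h a).flatMap g) ∧
      Elementary g ∧ Elementary (fun b => (g b).flatMap h) ∧ NF (fun b => (g b).flatMap h) G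

/-- The conjugate fixed point. -/
def S_word : Prop :=
  ∀ (A B : Type) (σ : A → List A) (u : ℕ → A) (r : ℕ) (g : B → List A) (h : A → List B)
    (G : B → Prop), Gen σ u → 1 ≤ r →
    (∀ a : A, (fun w : List A => w.flatMap σ)^[r] [a] = (h a).flatMap g) →
    (∀ b, g b ≠ []) → NF (fun b => (g b).flatMap h) G →
    ∃ v : ℕ → B, G (v 0) ∧ Pre g v u ∧ Pre h u v

/-- The bi-infinite system. -/
def S_ps : Prop :=
  ∀ (A B : Type) [Fintype B] (u : ℕ → A) (v : ℕ → B) (g : B → List A) (h : A → List B)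
    (G : B → Prop), Elementary g → Elementary (fun b => (g b).flatMap h) →
    NF (fun b => (g b).flatMap h) G → G (v 0) → Pre g v u → Pre h u v →
    EvPer u ∨ ∃ (X : PS (Option B)) (g' : Option B → List (Option A))
      (h' : Option A → List (Option B)) (cg ch : ℤ → ℤ), Elementary g' ∧
      IsParse g' X.U cg (ext u) ∧ IsParse h' (ext u) ch X.U ∧ ∀ i : ℤ, X.c i = ch (cg i)

/-- Morse-Hedlund, and the complexity of the extended word. -/
def S_mh : Prop :=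
  ∀ (A : Type) [Fintype A] (u : ℕ → A),
    (∀ n : ℕ, pc (ext u) n = pf u n + n) ∧ (¬ EvPer u → ∀ n : ℕ, pf u n + 1 ≤ pf u (n + 1))

/-- The analytic conclusion. -/
def S_theta : Prop :=
  ∀ p : ℕ → ℝ, 0 ≤ p 0 → (∀ n, 1 ≤ p (n + 1) - p n) →
    (LogClass (fun n => p (n + 1) - p n) ∨
      ∃ (C : ℝ) (N : ℕ), ∀ n : ℕ, N ≤ n →
        (n : ℝ) ≤ C * (p (n + 1) - p n) ∧ p (n + 1) - p n ≤ C * n) →
    Asymptotics.IsTheta Filter.atTop (fun n : ℕ => p (n + 1) - p n) (fun n : ℕ => p n / (n : ℝ))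

end Pool.Agent.H880Z
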