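import Pool.Agent.H880Z.St
import Pool.Agent.H149Z.PM.St

/-! Statements that connect the lower bound with the systems `PSys` of `Pool.Agent.H149Z.PM`. -/

set_option autoImplicit false

namespace Pool.Agent.H880Z

open Pool.Agent.H149Z.SU Pool.Agent.H149Z.PM

/-- Long factors of non-growing letters give long runs of fixed letters in the model. -/
def S_link : Prop :=
  ∀ (A B : Type) [Fintype B] (s : A → List A) (u : ℕ → A) (X : PSys B)
    (al : B → List (Option A)) (ca : ℤ → ℤ) (n : ℕ), (∀ b, al b ≠ []) →
    IsParse al X.V ca (Pool.Agent.H149Z.PM.ext u) → 1 ≤ n →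
    (∀ b, (fun w : List (Option A) =>
        w.flatMap (fun o : Option A => o.elim [none, none] (fun a => (s a).map some)))^[n] (al b)
      = (X.τ b).flatMap al) →
    Pushy s u → ∀ L : ℕ, ∃ a : ℤ, X.Fx a (a + L)

/-- Unbounded runs give a family of right special pairs. -/
def S_plower : Prop :=
  ∀ (B : Type) [Fintype B] (X : PSys B), (∀ L : ℕ, ∃ a : ℤ, X.Fx a (a + L)) → Fam X.V X.G

end Pool.Agent.H880Z
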